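import Pool.Agent.K1H17.MC.Bg

/-! The movable cone conjecture follows from its version for the big movable classes.

New: the passage from the interior of the movable cone to the effective classes on its boundary
(`Pool.Agent.K1H17.MC.Bg`). The construction of fundamental domains from covering cones
(`Pool.Agent.K1H17.MC.FA`) and the cones (`K1H17.MC.Defs`) were written for the hand-in
`FiniteQuotients`. -/

set_option autoImplicit false
set_option linter.overlappingInstances false

open FF Pool.Agent.K1H17.MC

namespace Pool.Agent.Results.MP_e39d36_ag.BigClasses

/-- Let `P` be the set of the prime divisors of a smooth projective variety `Y` with `K_Y ≡ 0`, with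
function field `K` (used are only: there is an ample divisor, and the theorem of the base). Let
`Q i` be finitely many rational polyhedral cones in the closed movable cone of `Y`, and assume that
every class in the interior of the movable cone (these are the big movable classes) lies in a
translate of one of the `Q i` under a birational automorphism. Then:

* every effective class in the closed movable cone, on the boundary or not, rational or not, lies in
  a translate of one of the `Q i` (in particular it is a combination of rational classes of the
  closed movable cone);
* if moreover the classes in the `Q i` are effective, then the movable cone conjecture holds for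
  `Y`: there is a rational polyhedral fundamental domain for the birational automorphisms on the
  effective movable cone. -/
theorem result {K : Type} [Field K] [Algebra ℂ K] {P : Set (Place ℂ K)} (hample : HasAmple P)
    (hbase : HasBase P) {κ : Type} [Finite κ] {Q : κ → Set (N1 P)} (hQ : ∀ i, RP (lat P) (Q i))
    (hQM : ∀ i, Q i ⊆ clo (Mov P))
    (hcov : ∀ x ∈ inn (MovE P), ∃ (g : psAut P) (i : κ), x ∈ act g '' Q i) :
    (∀ x ∈ MovE P, ∃ (g : psAut P) (i : κ), x ∈ act g '' Q i) ∧
      ((∀ i, Q i ⊆ Eff P) → MovableConeConjecture P) :=
  big_main hample hbase hQ hQM hcov

end Pool.Agent.Results.MP_e39d36_ag.BigClasses
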