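import Pool.Agent.K1H17.MC.Main

/-! The movable cone conjecture passes to quotients by finite groups.

Theorems of the library used as tools: `H575R2.farkas_lin` (Farkas' lemma), and the lemmas of
`FF`, `Pool.Agent.W619.PQ` on places of function fields (approximation, places over a subfield). -/

set_option autoImplicit false

open FF IntermediateField Pool.Agent.K1H17.MC

namespace Pool.Agent.Results.MP_e39d36_ag.FiniteQuotients

/-- **The movable cone conjecture descends to quotients by finite groups.**

Let `Z` be a smooth projective variety over `ℂ` with `K_Z ≡ 0`, with function field `L`, and let
`P` be the set of the prime divisors of `Z`, as places of `L`. Let `G` be a finite group of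
birational automorphisms of `Z` (which are isomorphisms in codimension one), for instance the Galois
group of an étale cover `Z → Y = Z / G`. If the movable cone conjecture holds for `Z`, then it holds
for `Y = Z / G`: there is a rational polyhedral cone in `N¹(Y)` which is a fundamental domain for
the action of the birational automorphisms of `Y` (isomorphisms in codimension one) on the effective
movable cone of `Y`.

The hypothesis `IsProj P` lists the three properties of `P` which are used: there is an ample
divisor, the classes of divisors form a lattice in `N¹(Z)` (theorem of the base), and the group of
the automorphisms which act trivially on `N¹(Z)` contains an abelian variety of finite index. -/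
theorem result {L : Type} [Field L] [Algebra ℂ L] (P : Set (Place ℂ L)) (hP : IsProj P)
    (G : Subgroup (L ≃ₐ[ℂ] L)) [Finite G] (hG : G ≤ psAut P) (h : MovableConeConjecture P) :
    MovableConeConjecture (quo P G) :=
  main hP hG h

end Pool.Agent.Results.MP_e39d36_ag.FiniteQuotients
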