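import Pool.Agent.K1H17.MC.Pr3

/-! The movable cone conjecture passes to products.

Theorems of the library used as tools: `H575R2.farkas_lin` (Farkas' lemma), and the lemmas of
`FF` on places of function fields. -/

set_option autoImplicit false

open FF IntermediateField Pool.Agent.K1H17.MC

namespace Pool.Agent.Results.MP_e39d36_ag.Products

/-- **The movable cone conjecture for products.**

Let `Y i` (`i` in the finite set `ι`) be smooth projective varieties over `ℂ` with trivial canonical
class, with function fields `M i`, and `P i` the set of the prime divisors of `Y i`, as places of
`M i`. Let `Z` be the product of the `Y i`, with function field `L`, and `Q` the set of its prime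
divisors (`IsProduct`, `s i v` is the pull-back of the prime divisor `v`), such that the Picard group
of `Z` is the sum of the Picard groups of the `Y i` (this holds, if `H¹(𝒪) = 0` for all `Y i` but
one). If the movable cone conjecture holds for all `Y i`, then it holds for `Z`.

`HasAmple Q`: the product is projective. `HasBase (P i)`: the classes of the divisors on `Y i` form a
lattice in `N¹(Y i)` (theorem of the base). The group which acts on the effective movable cone of `Z`
is the group of all birational automorphisms of `Z` (isomorphisms in codimension one); it may be
larger than the product of the groups of the factors. -/
theorem result {ι : Type} [Fintype ι] {L : Type} [Field L] [Algebra ℂ L]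
    (M : ι → IntermediateField ℂ L) (P : ∀ i, Set (Place ℂ (M i))) (Q : Set (Place ℂ L))
    (s : ∀ i, P i → Q) (hQ : IsProduct Q M P s) (hample : HasAmple Q)
    (hbase : ∀ i, HasBase (P i)) (h : ∀ i, MovableConeConjecture (P i)) :
    MovableConeConjecture Q := by
  classical
  exact hQ.main hample hbase h

end Pool.Agent.Results.MP_e39d36_ag.Products
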