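import Pool.Agent.K1H17.ST.Main
import Pool.Agent.K1H52.ST.Cone
import Pool.Agent.K1H82.ST.Det
import Pool.Agent.K1H83.ST.Rnd

/-! The movable cone conjecture for varieties whose group of birational automorphisms contains a
split abelian group of the largest possible rank.

New: the shape of the cones (`Pool.Agent.K1H17.ST.Ort`), the effective classes and the covering cone
(`Pool.Agent.K1H17.ST.Main`), with `K1H52.ST`, `K1H82.ST`, `K1H83.ST`, all written for this result.
The passage from covering cones to fundamental domains is that of the hand-ins `FiniteQuotients` and
`BigClasses` (`K1H17.MC`). -/

set_option autoImplicit false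
set_option linter.overlappingInstances false

open FF Module Pool.Agent.K1H17.MC Pool.Agent.K1H17.ST

namespace Pool.Agent.Results.MP_e39d36_ag.SplitAbelianGroups

/-- Let `P` be the set of the prime divisors of a smooth projective variety `Y` with `K_Y ≡ 0` and
Picard number `n`, with function field `K` (used are only: there is an ample divisor, and the theorem
of the base). Let `A` be a group of birational automorphisms of `Y` which has a basis `e` of common
eigenvectors in `N¹(Y)` with positive eigenvalues `c a i`, such that the vectors `(log (c a i))`
span a space of dimension `n - 1`, which is the largest possible one (`IsSplit`); for instance a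
group whose image in `GL (N¹(Y))` is free abelian of rank `n - 1` and diagonalizable over the real
numbers with positive eigenvalues. Then, with suitable signs `s i`:

* the interior of the effective movable cone is the simplicial cone of the classes
  `∑ x i * s i * e i` with all `x i > 0`;
* every nonzero effective class, movable or not, lies in this open simplicial cone (so every
  effective class is big and movable, and there are no fixed prime divisors);
* the movable cone conjecture holds for `Y`. -/
theorem result {K : Type} [Field K] [Algebra ℂ K] {P : Set (Place ℂ K)} (hample : HasAmple P)
    (hbase : HasBase P) {n : ℕ} (A : Subgroup (psAut P)) (e : Basis (Fin n) ℝ (N1 P))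
    (c : A → Fin n → ℝ) (hA : IsSplit A e c) :
    (∃ s : Fin n → ℝ, (∀ i, s i = 1 ∨ s i = -1) ∧
      (∀ x, x ∈ inn (MovE P) ↔ ∀ i, 0 < s i * e.repr x i) ∧
      ∀ x ∈ Eff P, x ≠ 0 → ∀ i, 0 < s i * e.repr x i) ∧ MovableConeConjecture P :=
  hA.main Pool.Agent.K1H82.ST.t_DET Pool.Agent.K1H83.ST.t_RND Pool.Agent.K1H52.ST.t_CON hample hbase

end Pool.Agent.Results.MP_e39d36_ag.SplitAbelianGroups
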